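import Pool.Agent.Helper15.KO.Sched

/-!
# The inequalities of one step
-/

set_option linter.unusedSectionVars false
set_option linter.unusedVariables false

namespace Pool.Agent.Helper15.KO

open Finset Pool.Agent.Helper15.KL

/-- resolution of the slopes in one step -/
def rho (A B a ν N X L : ℕ) : ℕ :=
  75 + ∑ i ∈ range (nu ν N), R2 A (ey a ν N i) + 33 * nu ν N +
    2 * (nu ν N * (B * X)) + 5 * (B * X) + A * (X * L)

section

variable {A B a ν N X L : ℕ} (hN : 0 < N) (hX : N * 2 ^ (a + 1) = X) (h : ν + 1 ≤ a)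
  (hs : 100 * sg a ≤ N) (hν : L < 2 ^ (ν + 1)) (hL : a + 4 ≤ L) (hnu : nu ν N ≤ 4096 * L)
  (hX2 : 1048576 ≤ X) (hL24 : 24 ≤ L) (hB : 6 ≤ B) (hA : 2 + 20481 * B ≤ A)

include hN hX h hs hν hL hnu hX2 hL24 hB hA

lemma two_le_nu : 2 ≤ nu ν N := by
  unfold nu
  calc 2 = 1 * 2 := by norm_num
    _ ≤ N * (ν + 3) := Nat.mul_le_mul hN (by omega)

lemma ineq_rho : ∀ l < nu ν N, 1 + ST (fun i => R2 A (ey a ν N i)) (fun i => Bf B (ey a ν N i)) l +
    (74 + T2 A (ey a ν N l) + 3 * R2 A (ey a ν N l) + 4 * SB (fun i => Bf B (ey a ν N i)) l +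
      Bf B (ey a ν N l)) ≤ rho A B a ν N X L := by
  intro l hl
  have t1 := tail2 (A := A) hN hX h hs hν hL hl
  have t2 := SB_le2 (B := B) hN hX h hB hl.le
  have t3 : Bf B (ey a ν N l) ≤ B * X := Bf_le2 hN hX h
  have t4 : ST (fun i => R2 A (ey a ν N i)) (fun i => Bf B (ey a ν N i)) l ≤
      33 * nu ν N + ∑ i ∈ range l, R2 A (ey a ν N i) + 2 * (nu ν N * (B * X)) := by
    unfold KL.ST
    rw [sum_add_distrib, sum_add_distrib]
    have e1 : ∑ i ∈ range l, 33 = 33 * l := by simp [mul_comm]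
    have e2 : ∑ i ∈ range l, 2 * SB (fun i => Bf B (ey a ν N i)) i ≤ 2 * (l * (B * X)) := by
      rw [← mul_sum]
      apply Nat.mul_le_mul_left
      calc ∑ i ∈ range l, SB (fun i => Bf B (ey a ν N i)) i
          ≤ ∑ i ∈ range l, B * X := by
            apply sum_le_sum
            intro i hi
            rw [mem_range] at hi
            exact SB_le2 hN hX h hB (by omega)
        _ = l * (B * X) := by simp
    have e3 : l * (B * X) ≤ nu ν N * (B * X) := Nat.mul_le_mul_right _ hl.le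
    omega
  unfold rho
  omega

/-- the common estimate of the remainder terms -/
lemma rest : 8 + 101 * nu ν N + 5 * (nu ν N * (B * X)) + B * X ≤ A * (X * L) := by
  have a1 : 8 + 101 * nu ν N ≤ X * L := by
    calc 8 + 101 * nu ν N ≤ 1048576 * L := by omega
      _ ≤ X * L := Nat.mul_le_mul_right _ hX2
  have a2 : nu ν N * (B * X) ≤ 4096 * (B * (X * L)) := by
    calc nu ν N * (B * X) ≤ (4096 * L) * (B * X) := Nat.mul_le_mul_right _ hnu
      _ = _ := by ring
  have a3 : B * X ≤ B * (X * L) := by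
    apply Nat.mul_le_mul_left
    exact Nat.le_mul_of_pos_right _ (by omega)
  calc 8 + 101 * nu ν N + 5 * (nu ν N * (B * X)) + B * X
      ≤ 2 * (X * L) + 20481 * (B * (X * L)) := by omega
    _ = (2 + 20481 * B) * (X * L) := by ring
    _ ≤ A * (X * L) := Nat.mul_le_mul_right _ hA

lemma sumR : ∑ i ∈ range (nu ν N), R2 A (ey a ν N i) ≤ 3 * (A * (X * L) * sg a) := by
  refine (sum_R2 hN hX h).trans ?_
  apply Nat.mul_le_mul_left
  calc A * (X * ((a + 4) * sg a)) = A * (X * (a + 4)) * sg a := by ring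
    _ ≤ A * (X * L) * sg a := by
      apply Nat.mul_le_mul_right
      apply Nat.mul_le_mul_left
      exact Nat.mul_le_mul_left _ hL

lemma sumT : ∑ i ∈ range (nu ν N), T2 A (ey a ν N i) ≤ 24 * (A * (X * L) * sg a ^ 2) := by
  refine (sum_T2 hN hX h).trans ?_
  apply Nat.mul_le_mul_left
  calc A * (X * ((a + 4) * sg a ^ 2)) = A * (X * (a + 4)) * sg a ^ 2 := by ring
    _ ≤ A * (X * L) * sg a ^ 2 := by
      apply Nat.mul_le_mul_right
      apply Nat.mul_le_mul_left
      exact Nat.mul_le_mul_left _ hL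

lemma ineq_R : 1 + 2 * nu ν N + rho A B a ν N X L ≤ 3 * (A * (X * L) * (sg a + 1)) := by
  have r1 := rest hN hX h hs hν hL hnu hX2 hL24 hB hA
  have t1 := sumR hN hX h hs hν hL hnu hX2 hL24 hB hA
  have n2 := two_le_nu hN hX h hs hν hL hnu hX2 hL24 hB hA
  have g1 : 5 * (B * X) ≤ A * (X * L) := by
    calc 5 * (B * X) = (5 * B) * X := by ring
      _ ≤ A * (X * L) := by
        apply Nat.mul_le_mul (by omega)
        exact Nat.le_mul_of_pos_right _ (by omega)
  have e1 : 3 * (A * (X * L) * (sg a + 1)) =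
    3 * (A * (X * L) * sg a) + 3 * (A * (X * L)) := by ring
  unfold rho
  omega

lemma ineq_b : 6 + SB (fun i => Bf B (ey a ν N i)) (nu ν N) ≤ B * X - 6 := by
  have t1 := sum_B2 (B := B) hN hX h hB
  have n2 := two_le_nu hN hX h hs hν hL hnu hX2 hL24 hB hA
  change 6 + ∑ i ∈ range (nu ν N), Bf B (ey a ν N i) ≤ _
  omega

lemma ineq_Q : 8 + rho A B a ν N X L + 4 * nu ν N + SQ (fun i => R2 A (ey a ν N i))
    (fun i => T2 A (ey a ν N i)) (fun i => Bf B (ey a ν N i)) (nu ν N) ≤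
      24 * (A * (X * L) * (sg a + 1) ^ 2) := by
  have r1 := rest hN hX h hs hν hL hnu hX2 hL24 hB hA
  have r2 := ineq_R hN hX h hs hν hL hnu hX2 hL24 hB hA
  have t1 := sumR hN hX h hs hν hL hnu hX2 hL24 hB hA
  have t2 := sumT hN hX h hs hν hL hnu hX2 hL24 hB hA
  have t3 := sum_B2 (B := B) hN hX h hB
  have q1 : SQ (fun i => R2 A (ey a ν N i)) (fun i => T2 A (ey a ν N i))
      (fun i => Bf B (ey a ν N i)) (nu ν N) ≤ 99 * nu ν N +
      5 * ∑ i ∈ range (nu ν N), R2 A (ey a ν N i) +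
      ∑ i ∈ range (nu ν N), T2 A (ey a ν N i) + 5 * (nu ν N * (B * X)) +
      ∑ i ∈ range (nu ν N), Bf B (ey a ν N i) := by
    simp only [SQ, sum_add_distrib]
    have e1 : ∑ i ∈ range (nu ν N), 99 = 99 * nu ν N := by simp [mul_comm]
    have e2 : ∑ i ∈ range (nu ν N), 5 * SB (fun i => Bf B (ey a ν N i)) i ≤
        5 * (nu ν N * (B * X)) := by
      rw [← mul_sum]
      apply Nat.mul_le_mul_left
      calc ∑ i ∈ range (nu ν N), SB (fun i => Bf B (ey a ν N i)) i
          ≤ ∑ i ∈ range (nu ν N), B * X := by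
            apply sum_le_sum
            intro i hi
            rw [mem_range] at hi
            exact SB_le2 hN hX h hB hi.le
        _ = nu ν N * (B * X) := by simp
    have e3 : ∑ i ∈ range (nu ν N), 2 * pr (fun i => R2 A (ey a ν N i)) i ≤
        2 * ∑ i ∈ range (nu ν N), R2 A (ey a ν N i) := by
      rw [← mul_sum]
      apply Nat.mul_le_mul_left
      obtain ⟨m, hm⟩ : ∃ m, nu ν N = m + 1 :=
        ⟨nu ν N - 1, by have := two_le_nu hN hX h hs hν hL hnu hX2 hL24 hB hA; omega⟩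
      rw [hm, sum_range_succ', sum_range_succ]
      simp only [pr]
      omega
    have e4 : ∑ i ∈ range (nu ν N), 3 * R2 A (ey a ν N i) =
        3 * ∑ i ∈ range (nu ν N), R2 A (ey a ν N i) := by rw [mul_sum]
    omega
  obtain ⟨Y, hY⟩ : ∃ Y, Y = A * (X * L) := ⟨_, rfl⟩
  rw [← hY] at r1 r2 t1 t2 ⊢
  have e1 : 24 * (Y * (sg a + 1) ^ 2) = 24 * (Y * sg a ^ 2) + 48 * (Y * sg a) + 24 * Y := by ring
  have e2 : 3 * (Y * (sg a + 1)) = 3 * (Y * sg a) + 3 * Y := by ring
  omega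

lemma ineq_N : 1 + SN (fun i => T2 A (ey a ν N i)) (fun i => R2 A (ey a ν N i))
    (fun i => Bf B (ey a ν N i)) (nu ν N) ≤ 24 * (A * (X * L) * (sg a + 1) ^ 2) := by
  have r1 := rest hN hX h hs hν hL hnu hX2 hL24 hB hA
  have t1 := sumR hN hX h hs hν hL hnu hX2 hL24 hB hA
  have t2 := sumT hN hX h hs hν hL hnu hX2 hL24 hB hA
  have q1 : SN (fun i => T2 A (ey a ν N i)) (fun i => R2 A (ey a ν N i))
      (fun i => Bf B (ey a ν N i)) (nu ν N) ≤ 18 * nu ν N +
      ∑ i ∈ range (nu ν N), T2 A (ey a ν N i) +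
      ∑ i ∈ range (nu ν N), R2 A (ey a ν N i) + 2 * (nu ν N * (B * X)) := by
    simp only [SN, sum_add_distrib]
    have e1 : ∑ i ∈ range (nu ν N), 18 = 18 * nu ν N := by simp [mul_comm]
    have e2 : ∑ i ∈ range (nu ν N), 2 * SB (fun i => Bf B (ey a ν N i)) i ≤
        2 * (nu ν N * (B * X)) := by
      rw [← mul_sum]
      apply Nat.mul_le_mul_left
      calc ∑ i ∈ range (nu ν N), SB (fun i => Bf B (ey a ν N i)) i
          ≤ ∑ i ∈ range (nu ν N), B * X := by
            apply sum_le_sum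
            intro i hi
            rw [mem_range] at hi
            exact SB_le2 hN hX h hB hi.le
        _ = nu ν N * (B * X) := by simp
    omega
  obtain ⟨Y, hY⟩ : ∃ Y, Y = A * (X * L) := ⟨_, rfl⟩
  rw [← hY] at r1 t1 t2 ⊢
  have e1 : 24 * (Y * (sg a + 1) ^ 2) = 24 * (Y * sg a ^ 2) + 48 * (Y * sg a) + 24 * Y := by ring
  omega

end

end Pool.Agent.Helper15.KO
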