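import Pool.Agent.Helper15.KL.Ind
import Pool.Agent.Helper15.KO.Ineq

/-!
# The family of inner blocks
-/

set_option linter.unusedSectionVars false
set_option linter.unusedVariables false

namespace Pool.Agent.Helper15.KO

open Finset Filter Topology Pool.Agent.N35.HL Pool.Agent.Helper15.KL

/-- the block of size `2 ^ a` -/
def FamO (A B : ℕ) (c : ℝ) (a : ℕ) : Prop :=
  Lv (T2 A a) (R2 A a) (T2 A a) (Bf B a) (Real.exp (c * 2 ^ a * (1 + 1 / ((a:ℝ) + 4))))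

/-- the numbers of one step -/
lemma step_data {a' : ℕ} (h20 : 20 ≤ a') : ∃ a ν μ N X L, a' = a + (μ + 5) + 6 ∧ L = a' + 4 ∧
    X = 2 ^ a' ∧ sg a' = sg a + 1 ∧ 0 < N ∧ N * 2 ^ (a + 1) = X ∧ ν + 1 ≤ a ∧ 100 * sg a ≤ N ∧
    L < 2 ^ (ν + 1) ∧ a + 4 ≤ L ∧ nu ν N ≤ 4096 * L ∧ 1048576 ≤ X ∧ 24 ≤ L := by
  have h1 := mu_room h20
  refine ⟨a' - (mu a' + 11), lg a', mu a', 1024 * 2 ^ mu a', 2 ^ a', a' + 4, by omega, rfl, rfl,
    sg_ge h20, by positivity, ?_, by omega, ?_, lt_pow_lg a', by omega, ?_, ?_, by omega⟩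
  · have e : 1024 = 2 ^ 10 := by norm_num
    rw [e, ← pow_add, ← pow_add]
    congr 1
    omega
  · have h2 := sg_le_mu a'
    have h3 : sg (a' - (mu a' + 11)) ≤ sg a' := sg_mono (Nat.sub_le _ _)
    omega
  · unfold nu
    have h2 := mu_num a'
    calc 1024 * 2 ^ mu a' * (lg a' + 3) = 1024 * (2 ^ mu a' * (lg a' + 3)) := by ring
      _ ≤ 1024 * (4 * (a' + 4)) := Nat.mul_le_mul_left _ h2
      _ = 4096 * (a' + 4) := by ring
  · calc 1048576 = 2 ^ 20 := by norm_num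
      _ ≤ _ := Nat.pow_le_pow_right (by norm_num) h20

attribute [local irreducible] rho nu ey SB SN KL.ST SQ in
set_option maxHeartbeats 1000000 in
theorem fam_stepO {A B : ℕ} {c : ℝ} {a' : ℕ} (h20 : 20 ≤ a') (hB : 6 ≤ B)
    (hA : 2 + 20481 * B ≤ A) (hc : 1 ≤ c) (hAc : (A:ℝ) ≤ Real.exp (1000 * c))
    (ih : ∀ a < a', FamO A B c a) : FamO A B c a' := by
  obtain ⟨a, ν, μ, N, X, L, ea, eL, eX, es, hN, hX, h, hs, hν, hL, hnu, hX2, hL24⟩ :=
    step_data h20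
  have step := stepR (t := fun i => T2 A (ey a ν N i)) (r := fun i => R2 A (ey a ν N i))
    (w := fun i => T2 A (ey a ν N i)) (b := fun i => Bf B (ey a ν N i))
    (β := fun i => Real.exp (c * 2 ^ (ey a ν N i) * (1 + 1 / (((ey a ν N i : ℕ):ℝ) + 4))))
    (n := nu ν N) (ρ := rho A B a ν N X L)
    (fun l _ => ih (ey a ν N l) (by have := ey_le a ν N l; omega))
    (fun l _ => Real.exp_nonneg _)
    (ineq_rho hN hX h hs hν hL hnu hX2 hL24 hB hA)
    (by unfold rho; omega)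
  have i1 := ineq_R hN hX h hs hν hL hnu hX2 hL24 hB hA
  have eT : T2 A a' = 24 * (A * (X * L) * (sg a + 1) ^ 2) := by
    unfold T2; rw [es, ← eX, ← eL]; ring
  have eR : R2 A a' = 3 * (A * (X * L) * (sg a + 1)) := by
    unfold R2; rw [es, ← eX, ← eL]; ring
  have eB : Bf B a' = B * X - 6 := by unfold Bf; rw [← eX]
  unfold FamO
  rw [eT, eR, eB]
  refine step.mono (ineq_N hN hX h hs hν hL hnu hX2 hL24 hB hA) i1
    (ineq_Q hN hX h hs hν hL hnu hX2 hL24 hB hA) (ineq_b hN hX h hs hν hL hnu hX2 hL24 hB hA) ?_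
  have n2 := two_le_nu hN hX h hs hν hL hnu hX2 hL24 hB hA
  have hρ : ((rho A B a ν N X L : ℕ) : ℝ) + 4 ≤
      A * 2 ^ (a + (μ + 5) + 6) * ((a + (μ + 5) + 10 : ℕ) : ℝ) ^ 2 := by
    have h1 : rho A B a ν N X L + 4 ≤ A * 2 ^ (a + (μ + 5) + 6) * (a + (μ + 5) + 10) ^ 2 := by
      have e1 : a + (μ + 5) + 10 = L := by omega
      have e2 : 2 ^ (a + (μ + 5) + 6) = X := by rw [← ea, ← eX]
      rw [e1, e2]
      have h2 : 3 * (sg a + 1) ≤ L := by
        have := sg_le a'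
        omega
      have h3 : 3 * (A * (X * L) * (sg a + 1)) ≤ A * X * L ^ 2 := by
        calc 3 * (A * (X * L) * (sg a + 1)) = A * (X * L) * (3 * (sg a + 1)) := by ring
          _ ≤ A * (X * L) * L := Nat.mul_le_mul_left _ h2
          _ = _ := by ring
      omega
    exact_mod_cast h1
  have key := gain (A := A) (a := a) (ν := μ + 5) (c := c)
    (ρ := ((rho A B a ν N X L : ℕ) : ℝ) + 4)
    (by omega) (by omega) hc hAc (by positivity) hρ
  have e1 : (((a' : ℕ) : ℝ) + 4) = ((a + (μ + 5) + 10 : ℕ) : ℝ) := by rw [ea]; push_cast; ring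
  have e2 : (2:ℝ) ^ a' = 2 ^ (a + (μ + 5) + 6) := by rw [ea]
  rw [e1, e2]
  refine key.trans ?_
  have hρp : (0:ℝ) < ((rho A B a ν N X L : ℕ) : ℝ) + 4 := by positivity
  have hmain : Real.exp (c * 2 ^ (a + (μ + 5) + 6) * (1 + 1 / ((a:ℝ) + 4))) ≤
      ∏ i ∈ range (nu ν N),
        Real.exp (c * 2 ^ (ey a ν N i) * (1 + 1 / (((ey a ν N i : ℕ):ℝ) + 4))) := by
    rw [← Real.exp_sum]
    apply Real.exp_le_exp.mpr
    have hsum : ((2:ℝ) ^ (a + (μ + 5) + 6)) = ∑ i ∈ range (nu ν N), (2:ℝ) ^ ey a ν N i := by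
      have h1 := sum_ey hN hX h
      rw [eX, ea] at h1
      exact_mod_cast h1.symm
    rw [hsum, mul_sum, sum_mul]
    apply sum_le_sum
    intro i _
    have hi : ((ey a ν N i : ℕ) : ℝ) ≤ a := by exact_mod_cast ey_le a ν N i
    have hi0 : (0:ℝ) ≤ ((ey a ν N i : ℕ) : ℝ) := Nat.cast_nonneg _
    apply mul_le_mul_of_nonneg_left _ (by positivity)
    have : 1 / ((a:ℝ) + 4) ≤ 1 / (((ey a ν N i : ℕ) : ℝ) + 4) :=
      one_div_le_one_div_of_le (by linarith) (by linarith)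
    linarith
  · have h9 := mul_le_mul_of_nonneg_left hmain (show (0:ℝ) ≤ 2500 / 10506 by norm_num)
    exact div_le_div_of_nonneg_right h9 hρp.le

/-- blocks of all sizes -/
theorem familyO : ∃ (A B : ℕ) (c : ℝ), 1 ≤ c ∧ ∀ a, FamO A B c a := by
  obtain ⟨A₀, ρ, τ, Bh, hA₀, hBh, hlev⟩ := levels
  set K : ℕ := 2 + 20481 * (Bh + 6) + τ + 5 * ρ with hK
  have hev : ∀ᶠ x : ℝ in atTop, 16 * (K:ℝ) * x ^ 5 ≤ Real.exp (1 / 3200 * x) := by
    have h1 := (isLittleO_pow_exp_pos_mul_atTop 5 (b := 1 / 3200) (by norm_num)).bound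
      (c := 1 / (16 * (K:ℝ) + 1)) (by positivity)
    filter_upwards [h1, eventually_ge_atTop 0] with x hx hx0
    rw [Real.norm_of_nonneg (by positivity), Real.norm_of_nonneg (Real.exp_nonneg _)] at hx
    have h2 : (0:ℝ) < 16 * (K:ℝ) + 1 := by positivity
    have h3 : (16 * (K:ℝ) + 1) * x ^ 5 ≤ Real.exp (1 / 3200 * x) := by
      calc (16 * (K:ℝ) + 1) * x ^ 5 ≤ (16 * (K:ℝ) + 1) * (1 / (16 * (K:ℝ) + 1) *
            Real.exp (1 / 3200 * x)) := mul_le_mul_of_nonneg_left hx h2.le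
        _ = _ := by field_simp
    have h4 : 0 ≤ x ^ 5 := by positivity
    linarith
  obtain ⟨N, hN⟩ := ((tendsto_natCast_atTop_atTop (R := ℝ)).eventually hev).exists_forall_of_atTop
  obtain ⟨s, hs⟩ : ∃ s, s = 2 * (N + 3 * 2 ^ 20) := ⟨_, rfl⟩
  obtain ⟨μ, hμ⟩ : ∃ μ, μ = Mu A₀ s := ⟨_, rfl⟩
  have hμs := Mu_ge (A := A₀) (by omega) s
  rw [← hμ] at hμs
  have hμ1 : 1 ≤ μ := by omega
  have hμN : N ≤ μ := by omega
  have hμ3 : 3 * 2 ^ 20 ≤ μ := by omega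
  have hs1 : s + 1 ≤ 2 * μ := by omega
  have hexp := hN μ hμN
  obtain ⟨B, hB⟩ : ∃ B, B = Bh * μ + 6 := ⟨_, rfl⟩
  obtain ⟨A, hA⟩ : ∃ A, A = 2 + 20481 * B + τ * (s + 1) ^ 4 * μ + ρ * (s + 1) ^ 3 * μ +
    4 * ρ * (s + 1) ^ 4 * μ := ⟨_, rfl⟩
  have hμ0 : (3 * 2 ^ 20 : ℝ) ≤ μ := by exact_mod_cast hμ3
  refine ⟨A, B, μ / (3 * 2 ^ 20), ?_, ?_⟩
  · rw [le_div_iff₀ (by positivity)]; linarith
  have hAle : A ≤ 16 * K * μ ^ 5 := by
    have h1 : (s + 1) ^ 4 ≤ 16 * μ ^ 4 := by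
      calc (s + 1) ^ 4 ≤ (2 * μ) ^ 4 := Nat.pow_le_pow_left hs1 4
        _ = 16 * μ ^ 4 := by ring
    have h2 : (s + 1) ^ 3 ≤ (s + 1) ^ 4 := Nat.pow_le_pow_right (by omega) (by norm_num)
    have h3 : 1 ≤ μ ^ 5 := Nat.one_le_pow _ _ (by omega)
    have h4 : μ ≤ μ ^ 5 := Nat.le_self_pow (by norm_num) μ
    have a1 : 2 + 20481 * B ≤ (2 + 20481 * (Bh + 6)) * μ ^ 5 := by
      rw [hB]
      calc 2 + 20481 * (Bh * μ + 6) = 2 * 1 + 20481 * (Bh * μ + 6 * 1) := by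
            rw [mul_one, mul_one]
        _ ≤ 2 * μ ^ 5 + 20481 * (Bh * μ ^ 5 + 6 * μ ^ 5) :=
            Nat.add_le_add (Nat.mul_le_mul_left _ h3) (Nat.mul_le_mul_left _ (Nat.add_le_add
              (Nat.mul_le_mul_left _ h4) (Nat.mul_le_mul_left _ h3)))
        _ = _ := by ring
    have a2 : τ * (s + 1) ^ 4 * μ ≤ τ * 16 * μ ^ 5 := by
      calc τ * (s + 1) ^ 4 * μ ≤ τ * (16 * μ ^ 4) * μ :=
            Nat.mul_le_mul_right _ (Nat.mul_le_mul_left _ h1)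
        _ = _ := by ring
    have a3 : ρ * (s + 1) ^ 3 * μ ≤ ρ * 16 * μ ^ 5 := by
      calc ρ * (s + 1) ^ 3 * μ ≤ ρ * (16 * μ ^ 4) * μ :=
            Nat.mul_le_mul_right _ (Nat.mul_le_mul_left _ (h2.trans h1))
        _ = _ := by ring
    have a4 : 4 * ρ * (s + 1) ^ 4 * μ ≤ 4 * ρ * 16 * μ ^ 5 := by
      calc 4 * ρ * (s + 1) ^ 4 * μ ≤ 4 * ρ * (16 * μ ^ 4) * μ :=
            Nat.mul_le_mul_right _ (Nat.mul_le_mul_left _ h1)
        _ = _ := by ring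
    calc A ≤ (2 + 20481 * (Bh + 6)) * μ ^ 5 + τ * 16 * μ ^ 5 + ρ * 16 * μ ^ 5 +
          4 * ρ * 16 * μ ^ 5 := by
          rw [hA]
          exact Nat.add_le_add (Nat.add_le_add (Nat.add_le_add a1 a2) a3) a4
      _ ≤ 16 * (2 + 20481 * (Bh + 6)) * μ ^ 5 + τ * 16 * μ ^ 5 + ρ * 16 * μ ^ 5 +
          4 * ρ * 16 * μ ^ 5 := by
          have : (2 + 20481 * (Bh + 6)) * μ ^ 5 ≤ 16 * (2 + 20481 * (Bh + 6)) * μ ^ 5 := by
            apply Nat.mul_le_mul_right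
            exact Nat.le_mul_of_pos_left _ (by norm_num)
          exact Nat.add_le_add_right (Nat.add_le_add_right (Nat.add_le_add_right this _) _) _
      _ = 16 * K * μ ^ 5 := by rw [hK]; ring
  have hAexp : (A:ℝ) ≤ Real.exp (1000 * (μ / (3 * 2 ^ 20))) := by
    have h1 : (A:ℝ) ≤ 16 * (K:ℝ) * (μ:ℝ) ^ 5 := by exact_mod_cast hAle
    refine h1.trans (hexp.trans (Real.exp_le_exp.mpr ?_))
    have : (0:ℝ) ≤ μ := Nat.cast_nonneg _
    nlinarith
  intro a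
  induction a using Nat.strong_induction_on with
  | _ a ih =>
    rcases Nat.lt_or_ge a 20 with h | h
    · refine (hlev s).mono ?_ ?_ ?_ ?_ ?_
      · rw [← hμ]
        unfold T2
        have h1 : 1 ≤ 24 * (2 ^ a * ((a + 4) * sg a ^ 2)) :=
          Nat.mul_pos (by norm_num) (Nat.mul_pos (by positivity)
            (Nat.mul_pos (by omega) (Nat.pow_pos (sg_pos a))))
        calc τ * (s + 1) ^ 4 * μ ≤ A * 1 := by rw [hA]; omega
          _ ≤ A * (24 * (2 ^ a * ((a + 4) * sg a ^ 2))) := Nat.mul_le_mul_left _ h1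
          _ = _ := by ring
      · rw [← hμ]
        unfold R2
        have h1 : 1 ≤ 3 * (2 ^ a * ((a + 4) * sg a)) :=
          Nat.mul_pos (by norm_num) (Nat.mul_pos (by positivity)
            (Nat.mul_pos (by omega) (sg_pos a)))
        calc ρ * (s + 1) ^ 3 * μ ≤ A * 1 := by rw [hA]; omega
          _ ≤ A * (3 * (2 ^ a * ((a + 4) * sg a))) := Nat.mul_le_mul_left _ h1
          _ = _ := by ring
      · rw [← hμ]
        unfold T2
        have h1 : 1 ≤ 24 * (2 ^ a * ((a + 4) * sg a ^ 2)) :=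
          Nat.mul_pos (by norm_num) (Nat.mul_pos (by positivity)
            (Nat.mul_pos (by omega) (Nat.pow_pos (sg_pos a))))
        calc 4 * ρ * (s + 1) ^ 4 * μ ≤ A * 1 := by rw [hA]; omega
          _ ≤ A * (24 * (2 ^ a * ((a + 4) * sg a ^ 2))) := Nat.mul_le_mul_left _ h1
          _ = _ := by ring
      · rw [← hμ]
        unfold Bf
        have h1 : B * 1 ≤ B * 2 ^ a := Nat.mul_le_mul_left _ Nat.one_le_two_pow
        omega
      · rw [← hμ]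
        apply Real.exp_le_exp.mpr
        have h1 : (2:ℝ) ^ a ≤ 2 ^ 19 := pow_le_pow_right₀ (by norm_num) (by omega)
        have ha0 : (0:ℝ) ≤ a := Nat.cast_nonneg a
        have h2 : 1 / ((a:ℝ) + 4) ≤ 1 := by
          rw [div_le_one (by linarith)]; linarith
        have hμp : (0:ℝ) ≤ μ := Nat.cast_nonneg _
        have hs0 : (0:ℝ) ≤ 1 / ((s:ℝ) + 1) := by positivity
        calc (μ:ℝ) / (3 * 2 ^ 20) * 2 ^ a * (1 + 1 / ((a:ℝ) + 4))
            ≤ (μ:ℝ) / (3 * 2 ^ 20) * 2 ^ 19 * (1 + 1 : ℝ) := by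
              apply mul_le_mul _ (by linarith) (by positivity) (by positivity)
              exact mul_le_mul_of_nonneg_left h1 (by positivity)
          _ = 1 / 3 * 1 * (μ:ℝ) := by ring
          _ ≤ 1 / 3 * (1 + 1 / ((s:ℝ) + 1)) * (μ:ℝ) := by
              apply mul_le_mul_of_nonneg_right _ hμp
              linarith
    · exact fam_stepO h (by omega) (by rw [hA]; omega)
        (by rw [le_div_iff₀ (by positivity)]; linarith) hAexp ih

end Pool.Agent.Helper15.KO
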