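import Pool.Agent.Helper15.KL.Fin
import Pool.Agent.Helper15.KO.Ind

/-!
# The final estimate
-/

set_option linter.unusedSectionVars false
set_option linter.unusedVariables false

namespace Pool.Agent.Helper15.KO

open Finset Filter Topology Pool.Agent.N35.HL Pool.Agent.W863.AllK KLev Pool.Agent.Helper15.KL

/-- the exponent -/
lemma log_boundsO {m l : ℕ} {x : ℝ} (h1 : 2 ^ l ≤ m) (h2 : m < 2 ^ (l + 1)) (hl : 10 ≤ l)
    (hx1 : (m:ℝ) ≤ x) (hx2 : x ≤ 8 * m) :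
    Real.log x * (Real.log (Real.log (Real.log x))) ^ 2 / (Real.log (Real.log x)) ^ 3 ≤
      8 * (l * (Real.log (Real.log l)) ^ 2 / (Real.log l) ^ 3) := by
  have hl0 : (10:ℝ) ≤ l := by exact_mod_cast hl
  have e1 : (2:ℝ) ^ l ≤ m := by exact_mod_cast h1
  have e2 : (m:ℝ) ≤ 2 ^ (l + 1) := by exact_mod_cast h2.le
  have hp : (0:ℝ) < 2 ^ l := by positivity
  have hx : 0 < x := by linarith
  have l2a := Real.log_two_gt_d9
  have l2b := Real.log_two_lt_d9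
  have h3 : Real.log x ≤ l := by
    have h4 : x ≤ 2 ^ (l + 4) := by
      have : (2:ℝ) ^ (l + 4) = 8 * 2 ^ (l + 1) := by ring
      linarith
    have h5 := Real.log_le_log hx h4
    rw [Real.log_pow] at h5
    push_cast at h5
    nlinarith
  have h4 : 0.69 * (l:ℝ) ≤ Real.log x := by
    have h5 := Real.log_le_log hp (e1.trans hx1)
    rw [Real.log_pow] at h5
    nlinarith
  have h5 : √(l:ℝ) ≤ Real.log x := by
    refine le_trans ?_ h4
    rw [Real.sqrt_le_left (by positivity)]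
    nlinarith
  have h6 : Real.log l / 2 ≤ Real.log (Real.log x) := by
    rw [← Real.log_sqrt (by positivity)]
    exact Real.log_le_log (Real.sqrt_pos.mpr (by linarith)) h5
  have h7 : 2 ≤ Real.log l := by
    have h5 : Real.exp 2 ≤ l := by
      have h6 : Real.exp 2 = Real.exp 1 * Real.exp 1 := by rw [← Real.exp_add]; norm_num
      have h7 := Real.exp_one_lt_d9
      have h8 := Real.exp_pos 1
      nlinarith
    rw [Real.le_log_iff_exp_le (by linarith)]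
    exact h5
  have hlx : 0 < Real.log x := by linarith
  have h9 : 1 ≤ Real.log (Real.log x) := by linarith
  have h10 : Real.log (Real.log x) ≤ Real.log l := Real.log_le_log hlx h3
  have h11 : 0 ≤ Real.log (Real.log (Real.log x)) := Real.log_nonneg h9
  have h12 : Real.log (Real.log (Real.log x)) ≤ Real.log (Real.log l) :=
    Real.log_le_log (by linarith) h10
  have h8 : 0 < (Real.log l / 2) ^ 3 := by positivity
  calc Real.log x * (Real.log (Real.log (Real.log x))) ^ 2 / (Real.log (Real.log x)) ^ 3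
      ≤ l * (Real.log (Real.log l)) ^ 2 / (Real.log l / 2) ^ 3 :=
        div_le_div₀ (by positivity)
          (mul_le_mul h3 (pow_le_pow_left₀ h11 h12 2) (by positivity) (by positivity)) h8
          (pow_le_pow_left₀ (by positivity) h6 3)
    _ = 8 * (l * (Real.log (Real.log l)) ^ 2 / (Real.log l) ^ 3) := by
        field_simp
        ring

lemma bigO (c : ℝ) : ∀ᶠ l : ℕ in atTop, c ≤ l * (Real.log (Real.log l)) ^ 2 / (Real.log l) ^ 3 := by
  have h1 : Tendsto (fun l : ℕ => Real.log (Real.log (l:ℝ))) atTop atTop :=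
    Real.tendsto_log_atTop.comp (Real.tendsto_log_atTop.comp tendsto_natCast_atTop_atTop)
  filter_upwards [big3 c, h1.eventually_ge_atTop 1, eventually_ge_atTop 2] with l hl h2 h3
  have hl0 : (2:ℝ) ≤ l := by exact_mod_cast h3
  have h7 : 0 < Real.log l := Real.log_pos (by linarith)
  refine hl.trans ?_
  have h4 : (1:ℝ) ≤ (Real.log (Real.log (l:ℝ))) ^ 2 := one_le_pow₀ h2
  have h5 : (l:ℝ) ≤ l * (Real.log (Real.log (l:ℝ))) ^ 2 := by nlinarith
  exact div_le_div_of_nonneg_right h5 (by positivity)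

/-- choice of the block -/
lemma choose_aO {K l a₀ : ℕ} (hK : 1 ≤ K) (hl : K * 2 ^ a₀ * ((a₀ + 4) * sg a₀ ^ 2) ≤ l) :
    ∃ a, a₀ ≤ a ∧ K * 2 ^ a * ((a + 4) * sg a ^ 2) ≤ l ∧
      l ≤ K * 2 ^ (a + 1) * ((a + 5) * sg (a + 1) ^ 2) := by
  have hle : ∀ b, K * 2 ^ b * ((b + 4) * sg b ^ 2) ≤ l → b ≤ l := by
    intro b hb
    calc b ≤ 2 ^ b := Nat.lt_two_pow_self.le
      _ = 1 * 2 ^ b * 1 := by ring
      _ ≤ K * 2 ^ b * ((b + 4) * sg b ^ 2) :=
        Nat.mul_le_mul (Nat.mul_le_mul_right _ hK)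
          (Nat.mul_pos (by omega) (Nat.pow_pos (sg_pos b)))
      _ ≤ l := hb
  have h0 := hle a₀ hl
  have hsp := Nat.findGreatest_spec (P := fun a => K * 2 ^ a * ((a + 4) * sg a ^ 2) ≤ l) h0 hl
  have hge := Nat.le_findGreatest (P := fun a => K * 2 ^ a * ((a + 4) * sg a ^ 2) ≤ l) h0 hl
  refine ⟨Nat.findGreatest (fun a => K * 2 ^ a * ((a + 4) * sg a ^ 2) ≤ l) l, hge, hsp, ?_⟩
  obtain ⟨a, ha⟩ : ∃ a, a =
    Nat.findGreatest (fun a => K * 2 ^ a * ((a + 4) * sg a ^ 2) ≤ l) l := ⟨_, rfl⟩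
  rw [← ha]
  by_contra hcon
  push Not at hcon
  have h2 : (fun a => K * 2 ^ a * ((a + 4) * sg a ^ 2) ≤ l) (a + 1) := by
    change K * 2 ^ (a + 1) * ((a + 1 + 4) * sg (a + 1) ^ 2) ≤ l
    have : a + 1 + 4 = a + 5 := by ring
    rw [this]
    exact hcon.le
  exact Nat.findGreatest_is_greatest (P := fun a => K * 2 ^ a * ((a + 4) * sg a ^ 2) ≤ l)
    (by rw [← ha]; exact Nat.lt_succ_self _) (hle _ h2) h2

/-- the double logarithm -/
lemma llog_le {K l a ν : ℕ} (haK : K ≤ a) (hl : 10 ≤ l) (hν : a + 1 + 4 < 2 ^ (ν + 1))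
    (hν2 : 2 ≤ ν) (ha2 : l ≤ K * 2 ^ (a + 1) * ((a + 5) * sg (a + 1) ^ 2)) :
    Real.log (Real.log l) ≤ 4 * ν := by
  have l2b := Real.log_two_lt_d9
  have hl0 : (10:ℝ) ≤ l := by exact_mod_cast hl
  have hν0 : (2:ℝ) ≤ ν := by exact_mod_cast hν2
  have ha0 : (0:ℝ) ≤ a := Nat.cast_nonneg _
  have f1 : l ≤ 2 ^ (5 * a + 16) := by
    have g1 : K ≤ 2 ^ a := haK.trans Nat.lt_two_pow_self.le
    obtain ⟨b, hb⟩ : ∃ b, b = a + 5 := ⟨_, rfl⟩
    have g2 : b ≤ 2 ^ b := Nat.lt_two_pow_self.le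
    have g3 : sg (a + 1) ≤ b := by have := sg_le (a + 1); omega
    have e : 5 * a + 16 = a + (a + 1) + (b + b * 2) := by omega
    rw [e]
    refine ha2.trans ?_
    rw [← hb, pow_add 2 (a + (a + 1)) (b + b * 2), pow_add 2 a (a + 1), pow_add 2 b (b * 2),
      pow_mul 2 b 2]
    exact Nat.mul_le_mul (Nat.mul_le_mul_right _ g1)
          (Nat.mul_le_mul g2 (Nat.pow_le_pow_left (g3.trans g2) 2))
  obtain ⟨n, hn⟩ : ∃ n, n = 5 * a + 16 := ⟨_, rfl⟩
  rw [← hn] at f1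
  have f2 : (l:ℝ) ≤ 2 ^ n := by exact_mod_cast f1
  have f3 := Real.log_le_log (by linarith) f2
  rw [Real.log_pow] at f3
  have hn' : (n:ℝ) = 5 * a + 16 := by rw [hn]; push_cast; ring
  have hn0 : (0:ℝ) ≤ n := Nat.cast_nonneg _
  have f4 : Real.log l ≤ ((a:ℝ) + 5) ^ 2 := by
    have g5 : (n:ℝ) * Real.log 2 ≤ n * 1 := mul_le_mul_of_nonneg_left (by linarith) hn0
    have g6 : ((a:ℝ) + 5) ^ 2 = a ^ 2 + 10 * a + 25 := by ring
    have g7 : (0:ℝ) ≤ (a:ℝ) ^ 2 := by positivity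
    rw [g6]
    linarith
  have f0 : 0 < Real.log l := Real.log_pos (by linarith)
  have f5 := Real.log_le_log f0 f4
  rw [Real.log_pow] at f5
  have f6 : (a:ℝ) + 5 ≤ 2 ^ (ν + 1) := by
    have : a + 5 ≤ 2 ^ (ν + 1) := by omega
    exact_mod_cast this
  have f7 := Real.log_le_log (by linarith) f6
  rw [Real.log_pow] at f7
  push_cast at f5 f7
  have g8 : ((ν:ℝ) + 1) * Real.log 2 ≤ ((ν:ℝ) + 1) * 1 :=
    mul_le_mul_of_nonneg_left (by linarith) (by positivity)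
  linarith

/-- the size of the block -/
lemma size_block {K l a : ℕ} (hK : 1 ≤ K) (haK : K ≤ a) (hl : 10 ≤ l)
    (ha1 : K * 2 ^ a * ((a + 4) * sg a ^ 2) ≤ l)
    (ha2 : l ≤ K * 2 ^ (a + 1) * ((a + 5) * sg (a + 1) ^ 2)) (hL : 2 ≤ Real.log l) :
    l * (Real.log (Real.log l)) ^ 2 / (Real.log l) ^ 3 ≤ 204800 * K * 2 ^ a := by
  have hl0 : (10:ℝ) ≤ l := by exact_mod_cast hl
  have ha0 : (0:ℝ) ≤ a := Nat.cast_nonneg _
  have l2a := Real.log_two_gt_d9
  have l2b := Real.log_two_lt_d9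
  obtain ⟨ν, hν⟩ : ∃ ν, ν = lg (a + 1) := ⟨_, rfl⟩
  have n1 := lg_sg (a + 1)
  have n2 := pow_lg (a + 1)
  have n3 := lt_pow_lg (a + 1)
  have n4 := lg_ge_two (a + 1)
  rw [← hν] at n1 n2 n3 n4
  have n5 : ν * sg (a + 1) ≤ 10 * (a + 5) := by omega
  have hν0 : (2:ℝ) ≤ ν := by exact_mod_cast n4
  -- l * ν ^ 2
  have e1 : l * ν ^ 2 ≤ 200 * (K * 2 ^ a) * (a + 5) ^ 3 := by
    calc l * ν ^ 2 ≤ K * 2 ^ (a + 1) * ((a + 5) * sg (a + 1) ^ 2) * ν ^ 2 :=
          Nat.mul_le_mul_right _ ha2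
      _ = 2 * (K * 2 ^ a) * ((a + 5) * (ν * sg (a + 1)) ^ 2) := by ring
      _ ≤ 2 * (K * 2 ^ a) * ((a + 5) * (10 * (a + 5)) ^ 2) := by
          apply Nat.mul_le_mul_left
          apply Nat.mul_le_mul_left
          exact Nat.pow_le_pow_left n5 2
      _ = _ := by ring
  have e1' : (l:ℝ) * ν ^ 2 ≤ 200 * (K * 2 ^ a) * ((a:ℝ) + 5) ^ 3 := by exact_mod_cast e1
  have e2 : (a:ℝ) + 5 ≤ 4 * Real.log l := by
    have e3 : 2 ^ a ≤ l := by
      calc 2 ^ a = 1 * 2 ^ a * 1 := by ring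
        _ ≤ K * 2 ^ a * ((a + 4) * sg a ^ 2) :=
          Nat.mul_le_mul (Nat.mul_le_mul_right _ hK)
            (Nat.mul_pos (by omega) (Nat.pow_pos (sg_pos a)))
        _ ≤ l := ha1
    have e4 : (2:ℝ) ^ a ≤ l := by exact_mod_cast e3
    have e5 := Real.log_le_log (by positivity) e4
    rw [Real.log_pow] at e5
    nlinarith
  -- the logarithm of the logarithm
  have e3 : Real.log (Real.log l) ≤ 4 * ν := llog_le haK hl n3 n4 ha2
  have e4 : 0 ≤ Real.log (Real.log l) := Real.log_nonneg (by linarith)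
  have e5 : (Real.log (Real.log l)) ^ 2 ≤ (4 * ν) ^ 2 := pow_le_pow_left₀ e4 e3 2
  have e6 : ((a:ℝ) + 5) ^ 3 ≤ (4 * Real.log l) ^ 3 := pow_le_pow_left₀ (by positivity) e2 3
  rw [div_le_iff₀ (by positivity)]
  calc (l:ℝ) * (Real.log (Real.log l)) ^ 2 ≤ l * (4 * ν) ^ 2 :=
        mul_le_mul_of_nonneg_left e5 (by positivity)
    _ = 16 * (l * ν ^ 2) := by ring
    _ ≤ 16 * (200 * (K * 2 ^ a) * ((a:ℝ) + 5) ^ 3) := by linarith
    _ ≤ 16 * (200 * (K * 2 ^ a) * (4 * Real.log l) ^ 3) := by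
        apply mul_le_mul_of_nonneg_left _ (by norm_num)
        exact mul_le_mul_of_nonneg_left e6 (by positivity)
    _ = 204800 * K * 2 ^ a * (Real.log l) ^ 3 := by ring

theorem finalEO : ∃ c₁ : ℝ, 0 < c₁ ∧ ∀ C : ℝ, ∀ᶠ m : ℕ in atTop, ∃ N E P,
    KLev.Has N E P ∧ N ≤ m ∧ ∀ x : ℝ, (m:ℝ) ≤ x → x ≤ 8 * m →
      C * m * Real.exp (c₁ * (Real.log x * (Real.log (Real.log (Real.log x))) ^ 2 /
        (Real.log (Real.log x)) ^ 3)) ≤ E := by
  obtain ⟨A, B, c, hc, hfam⟩ := familyO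
  set K : ℕ := 20 + 27 * A + B with hK
  have hK1 : 1 ≤ K := by omega
  have hK0 : (1:ℝ) ≤ K := by exact_mod_cast hK1
  have hc0 : 0 < c := by linarith
  obtain ⟨c₁, hc₁e⟩ : ∃ c₁ : ℝ, c₁ = c / (3276800 * K) := ⟨_, rfl⟩
  have hc₁ : 0 < c₁ := by rw [hc₁e]; positivity
  refine ⟨c₁, hc₁, ?_⟩
  intro C
  have hlog : Tendsto (fun m : ℕ => Nat.log 2 m) atTop atTop := by
    rw [tendsto_atTop]
    intro b
    filter_upwards [eventually_ge_atTop (2 ^ b)] with m hm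
    exact Nat.le_log_of_pow_le (by norm_num) hm
  have hev := hlog.eventually ((bigO (1 / (8 * c₁) * Real.log (10506 / 2500 * (|C| + 1)))).and
    (eventually_ge_atTop (K * 2 ^ K * ((K + 4) * sg K ^ 2) + 74)))
  filter_upwards [hev, eventually_ge_atTop 1] with m hm hm1
  obtain ⟨hbig, hl⟩ := hm
  set l := Nat.log 2 m with hldef
  have hlm : 2 ^ l ≤ m := Nat.pow_log_le_self 2 (by omega)
  have hlm2 : m < 2 ^ (l + 1) := Nat.lt_pow_succ_log_self (by norm_num) m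
  obtain ⟨a, haD, ha1, ha2⟩ := choose_aO (l := l) (a₀ := K) hK1 (by omega)
  obtain ⟨N, E, P, h2, h3, h4⟩ := (hfam a).fill (Real.exp_nonneg _) 0 m (by
    refine le_trans (Nat.pow_le_pow_right (by norm_num) (le_trans ?_ ha1)) hlm
    unfold T2 R2 Bf
    have s1 := sg_pos a
    have s2 : sg a * 1 ≤ sg a * sg a := Nat.mul_le_mul_left _ s1
    have e1 : 1 ≤ 2 ^ a * ((a + 4) * sg a ^ 2) :=
      Nat.mul_pos (by positivity) (Nat.mul_pos (by omega) (Nat.pow_pos s1))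
    have e2 : A * 2 ^ a * ((a + 4) * sg a) ≤ A * 2 ^ a * ((a + 4) * sg a ^ 2) := by
      apply Nat.mul_le_mul_left
      apply Nat.mul_le_mul_left
      rw [pow_two]
      omega
    have e3 : B * 2 ^ a * 1 ≤ B * 2 ^ a * ((a + 4) * sg a ^ 2) :=
      Nat.mul_le_mul_left _ (Nat.mul_pos (by omega) (Nat.pow_pos s1))
    have e4 : K * 2 ^ a * ((a + 4) * sg a ^ 2) = 20 * (2 ^ a * ((a + 4) * sg a ^ 2)) +
      27 * (A * 2 ^ a * ((a + 4) * sg a ^ 2)) + B * 2 ^ a * ((a + 4) * sg a ^ 2) := by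
      rw [hK]; ring
    rw [e4]
    simp only [zero_add, one_mul, one_pow, mul_one]
    omega)
  refine ⟨N, E, P, h2, h3, ?_⟩
  intro x hx1 hx2
  have hx3 := log_boundsO hlm hlm2 (by omega) hx1 hx2
  have hl0 : (74:ℝ) ≤ l := by exact_mod_cast (by omega : 74 ≤ l)
  have hL : 2 ≤ Real.log l := by
    have h5 : Real.exp 2 ≤ l := by
      have h6 : Real.exp 2 = Real.exp 1 * Real.exp 1 := by rw [← Real.exp_add]; norm_num
      have h7 := Real.exp_one_lt_d9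
      have h8 := Real.exp_pos 1
      nlinarith
    rw [Real.le_log_iff_exp_le (by linarith)]
    exact h5
  have h5 := size_block hK1 haD (by omega) ha1 ha2 hL
  set y : ℝ := l * (Real.log (Real.log l)) ^ 2 / (Real.log l) ^ 3 with hy
  have hy0 : 0 ≤ y := by
    rw [hy]; positivity
  have hm0 : (0:ℝ) ≤ m := Nat.cast_nonneg _
  have ha0 : (0:ℝ) ≤ a := Nat.cast_nonneg _
  have h6 : Real.exp (16 * c₁ * y) ≤
      Real.exp (c * 2 ^ a * (1 + 1 / ((a:ℝ) + 4))) ^ (0 + 1) := by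
    rw [zero_add, pow_one]
    apply Real.exp_le_exp.mpr
    have e3 : 16 * c₁ * y ≤ c * 2 ^ a := by
      calc 16 * c₁ * y ≤ 16 * c₁ * (204800 * K * 2 ^ a) :=
            mul_le_mul_of_nonneg_left h5 (by positivity)
        _ = c * 2 ^ a := by rw [hc₁e]; field_simp; norm_num
    have : 0 ≤ c * 2 ^ a * (1 / ((a:ℝ) + 4)) := by positivity
    linarith
  have h7 : |C| + 1 ≤ 2500 / 10506 * Real.exp (8 * c₁ * y) := by
    have e1 : (0:ℝ) < 10506 / 2500 * (|C| + 1) := by positivity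
    have e2 : Real.log (10506 / 2500 * (|C| + 1)) ≤ 8 * c₁ * y := by
      calc Real.log (10506 / 2500 * (|C| + 1)) =
            8 * c₁ * (1 / (8 * c₁) * Real.log (10506 / 2500 * (|C| + 1))) := by
            field_simp
        _ ≤ 8 * c₁ * y := mul_le_mul_of_nonneg_left hbig (by positivity)
    have e3 := Real.exp_le_exp.mpr e2
    rw [Real.exp_log e1] at e3
    linarith
  have h8 : c₁ * (Real.log x * (Real.log (Real.log (Real.log x))) ^ 2 /
      (Real.log (Real.log x)) ^ 3) ≤ 8 * c₁ * y := by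
    calc _ ≤ c₁ * (8 * y) := mul_le_mul_of_nonneg_left hx3 hc₁.le
      _ = 8 * c₁ * y := by ring
  calc C * m * Real.exp (c₁ * (Real.log x * (Real.log (Real.log (Real.log x))) ^ 2 /
        (Real.log (Real.log x)) ^ 3))
      ≤ (|C| + 1) * m * Real.exp (8 * c₁ * y) := by
        apply mul_le_mul _ (Real.exp_le_exp.mpr h8) (Real.exp_nonneg _) (by positivity)
        exact mul_le_mul_of_nonneg_right (by linarith [le_abs_self C]) hm0
    _ ≤ (2500 / 10506 * Real.exp (8 * c₁ * y)) * m * Real.exp (8 * c₁ * y) := by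
        apply mul_le_mul_of_nonneg_right _ (Real.exp_nonneg _)
        exact mul_le_mul_of_nonneg_right h7 hm0
    _ = 2500 / 10506 * (Real.exp (8 * c₁ * y) * Real.exp (8 * c₁ * y)) * m := by
        ring
    _ = 2500 / 10506 * Real.exp (16 * c₁ * y) * m := by
        rw [← Real.exp_add]
        congr 3
        ring
    _ ≤ 2500 / 10506 * Real.exp (c * 2 ^ a * (1 + 1 / ((a:ℝ) + 4))) ^ (0 + 1) * m := by
        apply mul_le_mul_of_nonneg_right _ hm0
        exact mul_le_mul_of_nonneg_left h6 (by norm_num)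
    _ ≤ E := h4

/-- the final estimate in the form of a power of `x` -/
theorem finalPO : ∃ c₁ : ℝ, 0 < c₁ ∧ ∀ C : ℝ, ∀ᶠ m : ℕ in atTop, ∃ N E P, KLev.Has N E P ∧
    N ≤ m ∧ ∀ x : ℝ, (m:ℝ) ≤ x → x ≤ 8 * m →
      C * x ^ (1 + c₁ * (Real.log (Real.log (Real.log x))) ^ 2 /
        (Real.log (Real.log x)) ^ 3) ≤ E := by
  obtain ⟨c₁, hc₁, hE⟩ := finalEO
  refine ⟨c₁, hc₁, ?_⟩
  intro C
  filter_upwards [hE (8 * max C 0), eventually_ge_atTop 1] with m hm hm1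
  obtain ⟨N, E, P, h1, h2, h3⟩ := hm
  refine ⟨N, E, P, h1, h2, ?_⟩
  intro x hx1 hx2
  have hm0 : (0:ℝ) < m := by exact_mod_cast hm1
  have hx : 0 < x := by linarith
  have h4 := h3 x hx1 hx2
  have e : x ^ (1 + c₁ * (Real.log (Real.log (Real.log x))) ^ 2 /
        (Real.log (Real.log x)) ^ 3) =
      x * Real.exp (c₁ * (Real.log x * (Real.log (Real.log (Real.log x))) ^ 2 /
      (Real.log (Real.log x)) ^ 3)) := by
    rw [Real.rpow_add hx, Real.rpow_one, Real.rpow_def_of_pos hx]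
    congr 2
    ring
  rw [e]
  have h5 : 0 ≤ max C 0 := le_max_right _ _
  set W := Real.exp (c₁ * (Real.log x * (Real.log (Real.log (Real.log x))) ^ 2 /
      (Real.log (Real.log x)) ^ 3)) with hW
  have hW0 : 0 ≤ W := Real.exp_nonneg _
  calc C * (x * W) ≤ max C 0 * (x * W) :=
        mul_le_mul_of_nonneg_right (le_max_left _ _) (by positivity)
    _ ≤ max C 0 * ((8 * m) * W) := by
        apply mul_le_mul_of_nonneg_left _ h5
        exact mul_le_mul_of_nonneg_right hx2 hW0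
    _ = 8 * max C 0 * m * W := by ring
    _ ≤ E := h4

/-- every level that is not too close to the bottom or the top -/
theorem all_levelsO : ∃ c₁ : ℝ, 0 < c₁ ∧ ∃ k₀ : ℕ, ∀ n k : ℕ, k₀ ≤ k → k + k₀ ≤ n →
    (n : ℝ) * ((min k (n - k) : ℕ) : ℝ) ^
      (c₁ * (Real.log (Real.log (Real.log ((min k (n - k) : ℕ) : ℝ)))) ^ 2 /
        (Real.log (Real.log ((min k (n - k) : ℕ) : ℝ))) ^ 3) ≤ (Levels.e k n : ℝ) := by
  obtain ⟨c₁, hc₁, hP⟩ := finalPO
  refine ⟨c₁, hc₁, ?_⟩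
  obtain ⟨a, ha⟩ := (hP 4).exists_forall_of_atTop
  refine ⟨a + 3, fun n k h1 h2 => ?_⟩
  obtain ⟨x, hx⟩ : ∃ x, x = min k (n - k) := ⟨_, rfl⟩
  rw [← hx]
  obtain ⟨N, E, P, hH, hN, hE⟩ := ha (x - 1) (by omega)
  have hx0 : (0:ℝ) < x := by
    have : 0 < x := by omega
    exact_mod_cast this
  have hE' := hE x (by exact_mod_cast (by omega : x - 1 ≤ x))
    (by exact_mod_cast (by omega : x ≤ 8 * (x - 1)))
  have key : ∃ g, g ≤ 2 * x ∧ 0 < g ∧ g ≤ n ∧ n / g * E ≤ Levels.e k n := by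
    by_cases hk : 2 * k + 1 ≤ n
    · exact ⟨N + k + 1, by omega, by omega, by omega,
        (many' hH (by omega : N ≤ k + 1) (by omega)).le_e⟩
    · refine ⟨N + (n - 2 - k) + 1, by omega, by omega, by omega, ?_⟩
      exact (flip (many' (n := n) hH (by omega : N ≤ (n - 2 - k) + 1) (by omega))
        (by omega : n - 2 - k + k + 2 = n)).le_e
  obtain ⟨g, g1, g0, g2, g3⟩ := key
  have g4 : n ≤ 4 * x * (n / g) := by
    have h5 : n < (n / g + 1) * g := Nat.lt_mul_of_div_lt (Nat.lt_succ_self _) g0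
    have h6 : 1 ≤ n / g := Nat.div_pos g2 g0
    have h7 : (n / g + 1) * g ≤ (2 * (n / g)) * (2 * x) := Nat.mul_le_mul (by omega) g1
    nlinarith
  set δ : ℝ := c₁ * (Real.log (Real.log (Real.log (x : ℝ)))) ^ 2 /
    (Real.log (Real.log (x : ℝ))) ^ 3 with hδ
  rw [Real.rpow_add hx0, Real.rpow_one] at hE'
  have g5 : (n:ℝ) ≤ 4 * x * ((n / g : ℕ) : ℝ) := by exact_mod_cast g4
  have g6 : (((n / g : ℕ) : ℝ)) * E ≤ Levels.e k n := by exact_mod_cast g3
  have hp : (0:ℝ) ≤ (x:ℝ) ^ δ := Real.rpow_nonneg hx0.le _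
  have hd : (0:ℝ) ≤ ((n / g : ℕ) : ℝ) := Nat.cast_nonneg _
  calc (n:ℝ) * (x:ℝ) ^ δ ≤ (4 * x * ((n / g : ℕ) : ℝ)) * (x:ℝ) ^ δ :=
        mul_le_mul_of_nonneg_right g5 hp
    _ = ((n / g : ℕ) : ℝ) * (4 * (x * (x:ℝ) ^ δ)) := by ring
    _ ≤ ((n / g : ℕ) : ℝ) * E := mul_le_mul_of_nonneg_left hE' hd
    _ ≤ _ := g6

end Pool.Agent.Helper15.KO
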