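import Pool.Agent.Helper15.KO.Stg

/-!
# Sums over the schedule
-/

set_option linter.unusedSectionVars false
set_option linter.unusedVariables false

namespace Pool.Agent.Helper15.KO

open Finset Pool.Agent.Helper15.KL

/-- sizes of the blocks of the sequence -/
def ey (a ν N i : ℕ) : ℕ := a - min (i / N) (ν + 1)

/-- number of blocks of the sequence -/
def nu (ν N : ℕ) : ℕ := N * (ν + 3)

/-- resolution of a block of size `2 ^ a` -/
def R2 (A a : ℕ) : ℕ := 3 * (A * 2 ^ a * ((a + 4) * sg a))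

/-- number of lines, and margin, of a block of size `2 ^ a` -/
def T2 (A a : ℕ) : ℕ := 24 * (A * 2 ^ a * ((a + 4) * sg a ^ 2))

lemma ey_le (a ν N i : ℕ) : ey a ν N i ≤ a := Nat.sub_le _ _

section

variable {a ν N X : ℕ} (hN : 0 < N) (hX : N * 2 ^ (a + 1) = X) (h : ν + 1 ≤ a)

include hN hX h

lemma sum_ey : ∑ i ∈ range (nu ν N), 2 ^ ey a ν N i = X := by
  unfold nu ey
  rw [sum_groups N (ν + 3) hN (fun q => 2 ^ (a - min q (ν + 1))),
    sum_min a (ν + 1) h, hX]

lemma sum_R2 {A : ℕ} :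
    ∑ i ∈ range (nu ν N), R2 A (ey a ν N i) ≤ 3 * (A * (X * ((a + 4) * sg a))) := by
  rw [← sum_ey hN hX h, sum_mul, mul_sum, mul_sum]
  apply sum_le_sum
  intro i _
  unfold R2
  have h1 : (ey a ν N i + 4) * sg (ey a ν N i) ≤ (a + 4) * sg a :=
    Nat.mul_le_mul (by have := ey_le a ν N i; omega) (sg_mono (ey_le a ν N i))
  apply Nat.mul_le_mul_left
  calc A * 2 ^ ey a ν N i * ((ey a ν N i + 4) * sg (ey a ν N i)) ≤
        A * 2 ^ ey a ν N i * ((a + 4) * sg a) := Nat.mul_le_mul_left _ h1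
    _ = _ := by ring

lemma sum_T2 {A : ℕ} :
    ∑ i ∈ range (nu ν N), T2 A (ey a ν N i) ≤ 24 * (A * (X * ((a + 4) * sg a ^ 2))) := by
  rw [← sum_ey hN hX h, sum_mul, mul_sum, mul_sum]
  apply sum_le_sum
  intro i _
  unfold T2
  have h1 : (ey a ν N i + 4) * sg (ey a ν N i) ^ 2 ≤ (a + 4) * sg a ^ 2 :=
    Nat.mul_le_mul (by have := ey_le a ν N i; omega)
      (Nat.pow_le_pow_left (sg_mono (ey_le a ν N i)) 2)
  apply Nat.mul_le_mul_left
  calc A * 2 ^ ey a ν N i * ((ey a ν N i + 4) * sg (ey a ν N i) ^ 2) ≤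
        A * 2 ^ ey a ν N i * ((a + 4) * sg a ^ 2) := Nat.mul_le_mul_left _ h1
    _ = _ := by ring

lemma sum_B2 {B : ℕ} (hB : 6 ≤ B) :
    ∑ i ∈ range (nu ν N), Bf B (ey a ν N i) + 6 * nu ν N = B * X := by
  rw [← sum_ey hN hX h, mul_sum]
  have h1 : 6 * nu ν N = ∑ i ∈ range (nu ν N), 6 := by simp [mul_comm]
  rw [h1, ← sum_add_distrib]
  apply sum_congr rfl
  intro i _
  unfold Bf
  have : 6 * 1 ≤ B * 2 ^ ey a ν N i := Nat.mul_le_mul hB Nat.one_le_two_pow
  omega

lemma SB_le2 {B l : ℕ} (hB : 6 ≤ B) (hl : l ≤ nu ν N) :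
    SB (fun i => Bf B (ey a ν N i)) l ≤ B * X := by
  change ∑ i ∈ range l, Bf B (ey a ν N i) ≤ _
  have h1 := sum_B2 (B := B) hN hX h hB
  have h2 : ∑ i ∈ range l, Bf B (ey a ν N i) ≤ ∑ i ∈ range (nu ν N), Bf B (ey a ν N i) :=
    sum_le_sum_of_subset (range_mono hl)
  omega

lemma Bf_le2 {B i : ℕ} : Bf B (ey a ν N i) ≤ B * X := by
  unfold Bf
  have h1 : B * 2 ^ ey a ν N i ≤ B * X := by
    apply Nat.mul_le_mul_left
    calc 2 ^ ey a ν N i ≤ 2 ^ (a + 1) :=
          Nat.pow_le_pow_right (by norm_num) (by have := ey_le a ν N i; omega)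
      _ = 1 * 2 ^ (a + 1) := by ring
      _ ≤ N * 2 ^ (a + 1) := Nat.mul_le_mul_right _ hN
      _ = X := hX
  omega

/-- the resolution of the later blocks covers the precision needed for the present one -/
lemma tail2 {A L l : ℕ} (hs : 100 * sg a ≤ N) (hν : L < 2 ^ (ν + 1)) (hL : a + 4 ≤ L)
    (hl : l < nu ν N) :
    ∑ i ∈ range l, R2 A (ey a ν N i) + (T2 A (ey a ν N l) + 3 * R2 A (ey a ν N l)) ≤
      ∑ i ∈ range (nu ν N), R2 A (ey a ν N i) + A * (X * L) := by
  obtain ⟨q, hq⟩ : ∃ q, q = l / N := ⟨_, rfl⟩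
  by_cases hqν : q < ν + 1
  · have h1 : l < N * (q + 1) := by rw [hq]; exact Nat.lt_mul_div_succ l hN
    have h2 : ∑ i ∈ range l, R2 A (ey a ν N i) ≤ ∑ i ∈ range (N * (q + 1)), R2 A (ey a ν N i) :=
      sum_le_sum_of_subset (range_mono h1.le)
    have h3 : ∑ i ∈ range (N * (q + 1) + N), R2 A (ey a ν N i) =
        ∑ i ∈ range (N * (q + 1)), R2 A (ey a ν N i) + N * R2 A (a - (q + 1)) := by
      rw [sum_range_add]
      congr 1
      have : ∀ j ∈ range N, R2 A (ey a ν N (N * (q + 1) + j)) = R2 A (a - (q + 1)) := by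
        intro j hj
        rw [mem_range] at hj
        congr 1
        unfold ey
        rw [Nat.mul_add_div hN, Nat.div_eq_of_lt hj, add_zero, min_eq_left (by omega)]
      rw [sum_congr rfl this]
      simp
    have h4 : ∑ i ∈ range (N * (q + 1) + N), R2 A (ey a ν N i) ≤
        ∑ i ∈ range (nu ν N), R2 A (ey a ν N i) := by
      apply sum_le_sum_of_subset
      apply range_mono
      unfold nu
      calc N * (q + 1) + N = N * (q + 2) := by ring
        _ ≤ N * (ν + 3) := Nat.mul_le_mul_left _ (by omega)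
    have h5 : ey a ν N l = a - q := by
      unfold ey
      rw [← hq, min_eq_left (by omega)]
    obtain ⟨x, hx⟩ : ∃ x, x = a - (q + 1) := ⟨_, rfl⟩
    have hx1 : a - q = x + 1 := by omega
    have h6 : T2 A (ey a ν N l) + 3 * R2 A (ey a ν N l) ≤ N * R2 A (a - (q + 1)) := by
      rw [h5, ← hx, hx1]
      unfold T2 R2
      have h7 := sg_succ x
      have h8 := sg_pos x
      have h9 : sg (x + 1) ≤ sg a := sg_mono (by omega)
      have h11 := sg_pos (x + 1)
      obtain ⟨s, hs0⟩ : ∃ s, s = sg x := ⟨_, rfl⟩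
      obtain ⟨s', hs1⟩ : ∃ s, s = sg (x + 1) := ⟨_, rfl⟩
      rw [← hs0] at h7 h8 ⊢
      rw [← hs1] at h7 h9 h11 ⊢
      have h10 : 88 * s' ≤ N := by omega
      have h12 : x + 5 ≤ 2 * (x + 4) := by omega
      have h13 : s' ≤ 2 * s := by omega
      have h14 : 24 * s' + 9 ≤ 33 * s' := by omega
      calc 24 * (A * 2 ^ (x + 1) * ((x + 1 + 4) * s' ^ 2)) +
            3 * (3 * (A * 2 ^ (x + 1) * ((x + 1 + 4) * s')))
          = A * 2 ^ x * (2 * (((x + 5) * s') * (24 * s' + 9))) := by ring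
        _ ≤ A * 2 ^ x * (2 * ((2 * (x + 4) * (2 * s)) * (33 * s'))) := by
            apply Nat.mul_le_mul_left
            apply Nat.mul_le_mul_left
            exact Nat.mul_le_mul (Nat.mul_le_mul h12 h13) h14
        _ = A * 2 ^ x * ((x + 4) * s) * (3 * (88 * s')) := by ring
        _ ≤ A * 2 ^ x * ((x + 4) * s) * (3 * N) := by
            apply Nat.mul_le_mul_left
            exact Nat.mul_le_mul_left _ h10
        _ = N * (3 * (A * 2 ^ x * ((x + 4) * s))) := by ring
    omega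
  · have h1 : ey a ν N l = a - (ν + 1) := by
      unfold ey
      rw [← hq, min_eq_right (by omega)]
    have h2 : ∑ i ∈ range l, R2 A (ey a ν N i) ≤ ∑ i ∈ range (nu ν N), R2 A (ey a ν N i) :=
      sum_le_sum_of_subset (range_mono hl.le)
    obtain ⟨y, hy⟩ : ∃ y, y = a - (ν + 1) := ⟨_, rfl⟩
    have h3 : T2 A (ey a ν N l) + 3 * R2 A (ey a ν N l) ≤ A * (X * L) := by
      rw [h1, ← hy]
      unfold T2 R2
      have h8 := sg_le y
      have h11 := sg_pos y
      have h9 : sg y ≤ sg a := sg_mono (by omega)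
      obtain ⟨s, hs0⟩ : ∃ s, s = sg y := ⟨_, rfl⟩
      rw [← hs0] at h8 h9 h11 ⊢
      have h10 : 24 * s + 9 ≤ 9 * (y + 4) := by omega
      have h12 : y + 4 ≤ 2 ^ (ν + 1) := by omega
      have h13 : 9 * s ≤ N := by omega
      have e1 : 2 ^ y * 2 ^ (ν + 1) = 2 ^ a := by
        rw [← pow_add]; congr 1; omega
      calc 24 * (A * 2 ^ y * ((y + 4) * s ^ 2)) + 3 * (3 * (A * 2 ^ y * ((y + 4) * s)))
          = A * (2 ^ y * (y + 4) * (s * (24 * s + 9))) := by ring
        _ ≤ A * (2 ^ y * L * (s * (9 * 2 ^ (ν + 1)))) := by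
            apply Nat.mul_le_mul_left
            apply Nat.mul_le_mul
            · exact Nat.mul_le_mul_left _ (by omega)
            · exact Nat.mul_le_mul_left _ (h10.trans (Nat.mul_le_mul_left _ h12))
        _ = A * ((9 * s) * (2 ^ y * 2 ^ (ν + 1)) * L) := by ring
        _ ≤ A * (N * (2 ^ y * 2 ^ (ν + 1)) * L) := by
            apply Nat.mul_le_mul_left
            apply Nat.mul_le_mul_right
            exact Nat.mul_le_mul_right _ h13
        _ = A * (N * 2 ^ a * L) := by rw [e1]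
        _ ≤ A * (X * L) := by
            apply Nat.mul_le_mul_left
            apply Nat.mul_le_mul_right
            rw [← hX]
            apply Nat.mul_le_mul_left
            exact Nat.pow_le_pow_right (by norm_num) (by omega)
    omega

end

end Pool.Agent.Helper15.KO
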