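import Pool.Agent.Helper15.KM.Stp

/-!
# The number of stages, with groups of the size of this number
-/

set_option linter.unusedSectionVars false
set_option linter.unusedVariables false

namespace Pool.Agent.Helper15.KO

open Finset Pool.Agent.Helper15.KL

/-- logarithm of the size of the exponent -/
def lg (a : ℕ) : ℕ := Nat.log 2 (a + 4)

/-- exponent of the size of a group -/
def mu (a : ℕ) : ℕ := lg a - Nat.log 2 (lg a)

lemma two_mul_le_two_pow (k : ℕ) : 2 * k ≤ 2 ^ k := by
  induction k with
  | zero => norm_num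
  | succ k ih =>
    rcases Nat.eq_zero_or_pos k with h | h
    · subst h; norm_num
    · have : 2 ≤ 2 ^ k := by
        calc 2 = 2 ^ 1 := by norm_num
          _ ≤ 2 ^ k := Nat.pow_le_pow_right (by norm_num) h
      rw [pow_succ]; omega

lemma lg_ge_two (a : ℕ) : 2 ≤ lg a := Nat.le_log_of_pow_le (by norm_num) (by norm_num)

lemma pow_lg (a : ℕ) : 2 ^ lg a ≤ a + 4 := Nat.pow_log_le_self 2 (by omega)

lemma lt_pow_lg (a : ℕ) : a + 4 < 2 ^ (lg a + 1) := Nat.lt_pow_succ_log_self (by norm_num) _

lemma lg_mono {a b : ℕ} (h : a ≤ b) : lg a ≤ lg b := Nat.log_mono_right (by omega)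

lemma pow_llg (a : ℕ) : 2 ^ Nat.log 2 (lg a) ≤ lg a :=
  Nat.pow_log_le_self 2 (by have := lg_ge_two a; omega)

lemma lt_pow_llg (a : ℕ) : lg a < 2 ^ (Nat.log 2 (lg a) + 1) :=
  Nat.lt_pow_succ_log_self (by norm_num) _

lemma two_llg (a : ℕ) : 2 * Nat.log 2 (lg a) ≤ lg a := (two_mul_le_two_pow _).trans (pow_llg a)

lemma pow_mu (a : ℕ) : 2 ^ mu a * 2 ^ Nat.log 2 (lg a) = 2 ^ lg a := by
  rw [← pow_add]
  congr 1
  have := two_llg a
  unfold mu
  omega

lemma mu_step {a b : ℕ} (h : a ≤ b) : mu b ≤ mu a + (b - a) := by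
  have h1 : lg b ≤ lg a + (b - a) := log_step h
  have h2 : Nat.log 2 (lg a) ≤ Nat.log 2 (lg b) := Nat.log_mono_right (lg_mono h)
  have h3 := two_llg a
  have h4 := two_llg b
  unfold mu
  omega

lemma mu_room {a : ℕ} (h : 20 ≤ a) : mu a + 11 + lg a + 1 ≤ a := by
  have h1 := pow_lg a
  have h4 : 4 ≤ lg a := Nat.le_log_of_pow_le (by norm_num) (by norm_num; omega)
  have h3 := lt_pow_lg a
  rcases Nat.lt_or_ge (lg a) 6 with h5 | h5
  · have h6 : lg a = 4 ∨ lg a = 5 := by omega
    rcases h6 with h6 | h6
    · have h7 : mu a = 2 := by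
        unfold mu
        rw [h6]
        have : Nat.log 2 4 = 2 := by decide
        rw [this]
      omega
    · have h7 : mu a = 3 := by
        unfold mu
        rw [h6]
        have : Nat.log 2 5 = 2 := by decide
        rw [this]
      rw [h6] at h1
      norm_num at h1
      omega
  · have h6 : ∀ n, 6 ≤ n → 2 * n + 16 ≤ 2 ^ n := by
      intro n hn
      induction n, hn using Nat.le_induction with
      | base => norm_num
      | succ n hn ih => rw [pow_succ]; omega
    have h7 := h6 (lg a) h5
    have h8 : mu a ≤ lg a := Nat.sub_le _ _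
    omega

/-- number of stages in the construction of the block of size `2 ^ a` -/
def sg (a : ℕ) : ℕ := if h : 20 ≤ a then sg (a - (mu a + 11)) + 1 else 1
termination_by a
decreasing_by omega

lemma sg_lt {a : ℕ} (h : a < 20) : sg a = 1 := by
  rw [sg, dif_neg (by omega)]

lemma sg_ge {a : ℕ} (h : 20 ≤ a) : sg a = sg (a - (mu a + 11)) + 1 := by
  rw [sg, dif_pos h]

lemma sg_pos (a : ℕ) : 1 ≤ sg a := by
  rcases Nat.lt_or_ge a 20 with h | h
  · rw [sg_lt h]
  · rw [sg_ge h]; omega

lemma sg_mono {a b : ℕ} (h : a ≤ b) : sg a ≤ sg b := by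
  induction b using Nat.strong_induction_on generalizing a with
  | _ b ih =>
    rcases Nat.lt_or_ge a 20 with h1 | h1
    · rw [sg_lt h1]; exact sg_pos b
    · have h2 : 20 ≤ b := by omega
      rw [sg_ge h1, sg_ge h2]
      have h3 := mu_step h
      have := ih (b - (mu b + 11)) (by omega) (a := a - (mu a + 11)) (by omega)
      omega

lemma sg_succ (a : ℕ) : sg (a + 1) ≤ sg a + 1 := by
  rcases Nat.lt_or_ge (a + 1) 20 with h | h
  · rw [sg_lt h]; omega
  · rw [sg_ge h]
    have := sg_mono (show a + 1 - (mu (a + 1) + 11) ≤ a by omega)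
    omega

lemma sg_le (a : ℕ) : 11 * sg a ≤ a + 11 := by
  induction a using Nat.strong_induction_on with
  | _ a ih =>
    rcases Nat.lt_or_ge a 20 with h1 | h1
    · rw [sg_lt h1]; omega
    · rw [sg_ge h1]
      have h2 := mu_room h1
      have := ih (a - (mu a + 11)) (by omega)
      omega

lemma sg_bound (a : ℕ) : lg a * sg a + 2 * 2 ^ lg a ≤ 8 * 2 ^ lg a + 2 * (a + 4) := by
  induction a using Nat.strong_induction_on with
  | _ a ih =>
    rcases Nat.lt_or_ge a 20 with h1 | h1
    · rw [sg_lt h1]
      have h2 : lg a ≤ 2 ^ lg a := Nat.lt_two_pow_self.le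
      have h3 := pow_lg a
      omega
    · have h2 := mu_room h1
      have h3 := ih (a - (mu a + 11)) (by omega)
      rw [sg_ge h1]
      obtain ⟨b, hb⟩ : ∃ b, b = a - (mu a + 11) := ⟨_, rfl⟩
      rw [← hb] at h3 ⊢
      have h4 : lg b ≤ lg a := lg_mono (by omega)
      have h5 := two_llg a
      have h6 : lg a ≤ 2 * (mu a + 11) := by unfold mu; omega
      have h7 := pow_lg a
      have h8 := lt_pow_lg b
      have h9 := pow_lg b
      rcases Nat.eq_or_lt_of_le h4 with h10 | h10
      · rw [h10] at h3
        have e : lg a * (sg b + 1) = lg a * sg b + lg a := by ring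
        rw [e]
        omega
      · -- the logarithm decreases by one
        have h11 : lg a ≤ lg b + 1 := by
          by_contra hcon
          push Not at hcon
          have h12 : 2 ^ (lg b + 1) * 2 ≤ 2 ^ lg a := by
            rw [← pow_succ]
            exact Nat.pow_le_pow_right (by norm_num) (by omega)
          have h13 : b + (mu a + 11) = a := by omega
          have h14 : mu a ≤ lg a := Nat.sub_le _ _
          have h16 : 4 ≤ lg a := Nat.le_log_of_pow_le (by norm_num) (by norm_num; omega)
          -- a + 4 < 2 ^ (lg b + 1) + mu a + 11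
          rcases Nat.lt_or_ge (lg a) 6 with h15 | h15
          · have h17 : lg a = 4 ∨ lg a = 5 := by omega
            rcases h17 with h17 | h17
            · have h18 : mu a = 2 := by
                unfold mu
                rw [h17]
                have : Nat.log 2 4 = 2 := by decide
                rw [this]
              rw [h17] at h12
              norm_num at h12
              omega
            · have h18 : mu a = 3 := by
                unfold mu
                rw [h17]
                have : Nat.log 2 5 = 2 := by decide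
                rw [this]
              rw [h17] at h12 h7
              norm_num at h12 h7
              omega
          · have h6' : ∀ n, 6 ≤ n → 2 * n + 22 ≤ 2 ^ n := by
              intro n hn
              induction n, hn using Nat.le_induction with
              | base => norm_num
              | succ n hn ih => rw [pow_succ]; omega
            have h18 := h6' (lg a) h15
            omega
        have h12 : lg a = lg b + 1 := by omega
        have h13 : 3 ≤ lg b := by
          have : 4 ≤ lg a := Nat.le_log_of_pow_le (by norm_num) (by norm_num; omega)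
          omega
        obtain ⟨n, hn⟩ : ∃ n, n = lg b := ⟨_, rfl⟩
        rw [h12] at h7 ⊢
        rw [← hn] at h3 h7 h8 h9 h13 ⊢
        obtain ⟨Y, hY⟩ : ∃ Y, Y = 2 ^ n := ⟨_, rfl⟩
        have hY1 : n + 1 ≤ Y := by rw [hY]; exact Nat.lt_two_pow_self
        rw [pow_succ, ← hY] at h8 h7 ⊢
        rw [← hY] at h3 h9
        -- n * s ≤ 10 Y
        have h14 : n * sg b ≤ 10 * Y := by omega
        have h15 : n * ((n + 1) * (sg b + 1)) ≤ n * (16 * Y) := by
          calc n * ((n + 1) * (sg b + 1)) = (n + 1) * (n * sg b) + n * (n + 1) := by ring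
            _ ≤ (n + 1) * (10 * Y) + n * Y :=
              Nat.add_le_add (Nat.mul_le_mul_left _ h14) (Nat.mul_le_mul_left _ hY1)
            _ = 11 * (n * Y) + 10 * Y := by ring
            _ ≤ 11 * (n * Y) + 5 * (n * Y) := by
                have : 3 * Y ≤ n * Y := Nat.mul_le_mul_right _ h13
                omega
            _ = n * (16 * Y) := by ring
        have h16 := Nat.le_of_mul_le_mul_left h15 (by omega)
        omega

lemma lg_sg (a : ℕ) : lg a * sg a ≤ 10 * 2 ^ lg a := by
  have h1 := sg_bound a
  have h2 := lt_pow_lg a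
  rw [pow_succ] at h2
  omega

lemma sg_le_mu (a : ℕ) : sg a ≤ 10 * 2 ^ mu a := by
  have h1 := lg_sg a
  have h2 := pow_mu a
  have h3 := pow_llg a
  have h4 := lg_ge_two a
  have h5 : lg a * sg a ≤ lg a * (10 * 2 ^ mu a) := by
    calc lg a * sg a ≤ 10 * 2 ^ lg a := h1
      _ = 10 * 2 ^ mu a * 2 ^ Nat.log 2 (lg a) := by rw [← h2]; ring
      _ ≤ 10 * 2 ^ mu a * lg a := Nat.mul_le_mul_left _ h3
      _ = _ := by ring
  exact Nat.le_of_mul_le_mul_left h5 (by omega)

lemma mu_num (a : ℕ) : 2 ^ mu a * (lg a + 3) ≤ 4 * (a + 4) := by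
  have h2 := pow_mu a
  have h3 := lt_pow_llg a
  have h5 := pow_lg a
  have h6 : 1 ≤ 2 ^ Nat.log 2 (lg a) := Nat.one_le_two_pow
  rw [pow_succ] at h3
  calc 2 ^ mu a * (lg a + 3) ≤ 2 ^ mu a * (4 * 2 ^ Nat.log 2 (lg a)) :=
        Nat.mul_le_mul_left _ (by omega)
    _ = 4 * 2 ^ lg a := by rw [← h2]; ring
    _ ≤ 4 * (a + 4) := Nat.mul_le_mul_left _ h5

end Pool.Agent.Helper15.KO
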